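import Pool.Agent.MWKP.Stmts

/-!
# Squad MWKP, row KPG: powers of a word whose letters have occurred
-/

set_option autoImplicit false

namespace Pool.Agent.MWKP.H6

open Pool.Agent.Helper14_MV Pool.Agent.Helper2_MV Pool.Agent.MWK Pool.Agent.MWKP

theorem pw_succ (k : ℕ) (X : List ℕ) : pw (k + 1) X = X ++ pw k X := by
  unfold pw
  rw [List.replicate_succ, List.flatten_cons]

theorem count_pw (k : ℕ) (X : List ℕ) (l : ℕ) : (pw k X).count l = k * X.count l := by
  induction k with
  | zero =>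
    unfold pw
    rw [List.replicate_zero, List.flatten_nil, List.count_nil, zero_mul]
  | succ k ih =>
    rw [pw_succ, List.count_append, ih]
    ring

theorem mem_pw (k : ℕ) (X : List ℕ) (l : ℕ) (h : l ∈ pw k X) : l ∈ X := by
  unfold pw at h
  rw [List.mem_flatten] at h
  obtain ⟨Y, hY, hl⟩ := h
  rw [List.eq_of_mem_replicate hY] at hl
  exact hl

theorem kpg (hk : KddStmt) : KpgStmt := by
  intro n θ hθ P X Q i j hX hi hj hij
  obtain ⟨i', rfl⟩ : ∃ i', i = i' + 1 := ⟨i - 1, by omega⟩
  obtain ⟨j', rfl⟩ : ∃ j', j = j' + 1 := ⟨j - 1, by omega⟩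
  have hij' : i' ≡ j' [MOD n] := Nat.ModEq.add_right_cancel' 1 hij
  have hd : ∀ l ∈ X, 2 ≤ (P ++ X).count l := by
    intro l hl
    rw [List.count_append]
    have h1 : 0 < P.count l := List.count_pos_iff.2 (hX l hl)
    have h2 : 0 < X.count l := List.count_pos_iff.2 hl
    omega
  have h := hk n θ hθ (P ++ X) (pw i' X) (pw j' X) Q
    (fun l hl => hd l (mem_pw i' X l hl)) (fun l hl => hd l (mem_pw j' X l hl))
    (fun l => by
      rw [count_pw, count_pw]
      exact hij'.mul_right _)
  have e : ∀ k : ℕ, P ++ pw (k + 1) X ++ Q = P ++ X ++ pw k X ++ Q := by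
    intro k
    rw [pw_succ, ← List.append_assoc P X]
  rw [e i', e j']
  exact h

end Pool.Agent.MWKP.H6
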